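import Pool.Agent.Q143.EQ.Odd
import Pool.Agent.Q143.EQ.Polygon

/-!
# Convex equilateral polygons of all large sizes in rectangular lattices

For every `m ≡ 3 (mod 4)` there is an `N` such that the lattice `Λ(m)` generated by `(1, 0)` and
`(0, √m)` contains a convex equilateral `n`-gon for every `n ≥ N`.

Proof. It suffices to find `n` different elements of absolute value one of the field `ℚ(√(-m))` with
sum zero (sort the vectors by angle and clear denominators), and since `u, -u` may be added only one
odd `n` is needed. With `u = (1 + √(-m)) / (1 - √(-m))` and `t = (m + 1) / 4` one has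
`t u + t u⁻¹ + (2 t - 1) 1 = 0`, a relation with the odd number `m` of summands which are not
different. By the pigeonhole principle `1` is a sum of distinct elements of absolute value one outside
of any given finite set. If the number of summands of one of these representations is even, then it is
an odd relation. Otherwise each of the repeated summands above may be replaced without changing the
parity.
-/

set_option autoImplicit false

namespace Pool.Agent.Results.MP_349919_co.AllLargeSizes

open Q143.EQ

/-- The rectangular lattice `Λ(m)` of the points `(a, b √m)`, `a b` integers, in the plane `ℂ`. -/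
def Lam (m : ℕ) : Set ℂ := {z | ∃ a b : ℤ, z = ⟨(a : ℝ), (b : ℝ) * Real.sqrt m⟩}

/-- The points `v i`, `i` modulo `n`, are the vertices in counterclockwise order of a convex
equilateral `n`-gon: `n ≥ 3`, all the vertices other than `v i` and `v (i + 1)` lie strictly to the
left of the directed line from `v i` to `v (i + 1)`, and all the sides have the same length. -/
structure IsConvexEquilateral (n : ℕ) (v : ZMod n → ℂ) : Prop where
  three_le : 3 ≤ n
  convex : ∀ i j, j ≠ i → j ≠ i + 1 →
    0 < (v (i + 1) - v i).re * (v j - v i).im - (v (i + 1) - v i).im * (v j - v i).re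
  equilateral : ∃ L : ℝ, 0 < L ∧ ∀ i, dist (v i) (v (i + 1)) = L

theorem mem_Lam_of_isInt {m : ℕ} {z : ℂ} (h : IsInt m z) : z ∈ Lam m := by
  obtain ⟨a, b, rfl⟩ := h
  refine ⟨a, b, ?_⟩
  apply Complex.ext
  · simp [s_re]
  · simp [s_im]

theorem common_denominator {m : ℕ} (U : Finset ℂ) (h : ∀ v ∈ U, G m v) :
    ∃ D : ℕ, 0 < D ∧ ∀ v ∈ U, IsInt m (D * v) := by
  classical
  induction U using Finset.induction_on with
  | empty => exact ⟨1, one_pos, by simp⟩
  | insert a S ha ih =>
    obtain ⟨D, hD, hDint⟩ := ih fun v hv => h v (Finset.mem_insert_of_mem hv)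
    obtain ⟨-, E, hE, hEint⟩ := h a (Finset.mem_insert_self _ _)
    refine ⟨D * E, Nat.mul_pos hD hE, fun v hv => ?_⟩
    rcases Finset.mem_insert.1 hv with rfl | hv
    · have := (IsInt.natCast m D).mul hEint
      convert this using 1
      push_cast
      ring
    · have := (IsInt.natCast m E).mul (hDint v hv)
      convert this using 1
      push_cast
      ring

theorem polygon_of_hasZeroSum {m n : ℕ} (hn : 3 ≤ n) (h : HasZeroSum m n) :
    ∃ v : ZMod n → ℂ, IsConvexEquilateral n v ∧ ∀ i, v i ∈ Lam m := by
  obtain ⟨U, hc, hG, hs⟩ := h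
  obtain ⟨D, hD, hint⟩ := common_denominator U hG
  obtain ⟨θ, hmono, hspan, hU, hsum⟩ := exists_sorted U fun v hv => (hG v hv).1
  rw [hc] at hmono hspan hU hsum
  rw [hs] at hsum
  have hn0 : NeZero n := ⟨by omega⟩
  let e : ℕ → ℂ := fun k => Complex.exp (θ k * Complex.I)
  let p : ℕ → ℂ := fun j => ∑ k ∈ Finset.range j, e k
  have hpn : p n = 0 := hsum
  have hp0 : p 0 = 0 := by simp [p]
  have hDr : (0 : ℝ) < D := by exact_mod_cast hD
  let v : ZMod n → ℂ := fun i => D * p i.val
  have hval : ∀ i : ZMod n, (i + 1).val = if i.val + 1 = n then 0 else i.val + 1 := by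
    intro i
    have h1 : (1 : ZMod n).val = 1 := by
      rw [ZMod.val_one_eq_one_mod]
      exact Nat.mod_eq_of_lt (by omega)
    have hi := ZMod.val_lt i
    rw [ZMod.val_add, h1]
    split_ifs with h
    · rw [h, Nat.mod_self]
    · exact Nat.mod_eq_of_lt (by omega)
  have hstep : ∀ i : ZMod n, v (i + 1) - v i = D * e i.val := by
    intro i
    have hp : p (i + 1).val = p (i.val + 1) := by
      rw [hval]
      split_ifs with h
      · rw [h, hpn, hp0]
      · rfl
    change (D : ℂ) * p (i + 1).val - D * p i.val = D * e i.val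
    rw [hp]
    change (D : ℂ) * (∑ k ∈ Finset.range (i.val + 1), e k) - D * (∑ k ∈ Finset.range i.val, e k) = _
    rw [Finset.sum_range_succ]
    ring
  have hsin : ∀ i < n, ∑ k ∈ Finset.range n, Real.sin (θ k - θ i) = 0 := by
    intro i _
    have h1 : cross (e i) (∑ k ∈ Finset.range n, e k) = 0 := by
      have : ∑ k ∈ Finset.range n, e k = 0 := hsum
      rw [this]
      simp [cross]
    rw [cross_sum] at h1
    rw [← h1]
    exact Finset.sum_congr rfl fun k _ => (cross_exp (θ i) (θ k)).symm
  have hcross : ∀ i j, (i ≤ j → cross (e i) (p j - p i) = ∑ k ∈ Finset.Ico i j,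
      Real.sin (θ k - θ i)) ∧ (j ≤ i → cross (e i) (p j - p i) = -∑ k ∈ Finset.Ico j i,
      Real.sin (θ k - θ i)) := by
    intro i j
    constructor
    · intro hij
      have : p j - p i = ∑ k ∈ Finset.Ico i j, e k := (Finset.sum_Ico_eq_sub _ hij).symm
      rw [this, cross_sum]
      exact Finset.sum_congr rfl fun k _ => cross_exp (θ i) (θ k)
    · intro hij
      have : p i - p j = ∑ k ∈ Finset.Ico j i, e k := (Finset.sum_Ico_eq_sub _ hij).symm
      rw [← neg_sub (p i) (p j), cross_neg, this, cross_sum]
      congr 1
      exact Finset.sum_congr rfl fun k _ => cross_exp (θ i) (θ k)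
  refine ⟨v, ⟨hn, ?_, D, hDr, ?_⟩, ?_⟩
  · intro i j hji hji1
    have hi := ZMod.val_lt i
    have hj := ZMod.val_lt j
    have hne : j.val ≠ i.val := fun h => hji (ZMod.val_injective n h)
    have hne1 : j.val ≠ (i + 1).val := fun h => hji1 (ZMod.val_injective n h)
    rw [hval] at hne1
    have key : 0 < cross (e i.val) (p j.val - p i.val) := by
      rcases lt_or_gt_of_ne hne with h | h
      · rw [(hcross _ _).2 h.le]
        have hn' : ¬ (j.val = 0 ∧ i.val + 1 = n) := by
          rintro ⟨h1, h2⟩
          rw [if_pos h2] at hne1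
          exact hne1 h1
        have := caseB hn hmono hspan h hi hn' (hsin _ hi)
        linarith
      · rw [(hcross _ _).1 (le_of_lt h)]
        have h2 : i.val + 1 < j.val := by
          by_cases h3 : i.val + 1 = n
          · omega
          · rw [if_neg h3] at hne1
            omega
        exact caseA hn hmono hspan h2 hj (hsin _ hi)
    have e1 : v j - v i = D * (p j.val - p i.val) := by
      change (D : ℂ) * p j.val - D * p i.val = _
      ring
    rw [hstep, e1]
    simp only [Complex.mul_re, Complex.mul_im, Complex.natCast_re, Complex.natCast_im, zero_mul,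
      sub_zero, add_zero]
    have e2 : (D : ℝ) * (e i.val).re * (D * (p j.val - p i.val).im) -
        D * (e i.val).im * (D * (p j.val - p i.val).re) =
        (D : ℝ) ^ 2 * cross (e i.val) (p j.val - p i.val) := by
      unfold cross
      ring
    rw [e2]
    positivity
  · intro i
    rw [dist_comm, dist_eq_norm, hstep, norm_mul, Complex.norm_natCast,
      Complex.norm_exp_ofReal_mul_I, mul_one]
  · intro i
    apply mem_Lam_of_isInt
    change IsInt m (D * ∑ k ∈ Finset.range i.val, e k)
    rw [Finset.mul_sum]
    refine IsInt.sum _ _ fun k hk => ?_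
    rw [Finset.mem_range] at hk
    exact hint _ (hU k (hk.trans (ZMod.val_lt i)))

/-- For every `m ≡ 3 (mod 4)`, in particular for the squarefree ones, there is an `N` such that the
lattice `Λ(m)` contains a convex equilateral `n`-gon for every `n ≥ N`. -/
theorem result (m : ℕ) (hm : m % 4 = 3) :
    ∃ N : ℕ, ∀ n ≥ N, ∃ v : ZMod n → ℂ, IsConvexEquilateral n v ∧ ∀ i, v i ∈ Lam m := by
  obtain ⟨N, hN, h⟩ := exists_all hm
  exact ⟨N, fun n hn => polygon_of_hasZeroSum (hN.trans hn) (h n hn)⟩

end Pool.Agent.Results.MP_349919_co.AllLargeSizes
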